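import Mathlib
import Pool.Agent.Helper8.AffGroup
import Pool.Agent.Helper8.QAlg
import Pool.Agent.Helper8.Deriv

/-!
# Abstractly isomorphic algebraic groups that are not semialgebraically isomorphic

We refute the statement of the problem by a pair of connected solvable linear algebraic groups.
-/

set_option autoImplicit false

universe u

namespace Pool.Agent.Results.MP_83c24b_al.NotSemialgebraic

open Matrix Pool.Agent.Helper8

section defs

variable {K : Type u} [Field K]

/-- The value of a polynomial in the matrix entries at an invertible matrix. -/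
noncomputable def evalAt {ι : Type} [Fintype ι] [DecidableEq ι] (g : GL ι K)
    (p : MvPolynomial (ι × ι) K) : K :=
  MvPolynomial.eval (fun ij => (g : Matrix ι ι K) ij.1 ij.2) p

/-- The standard coordinates of an invertible matrix: its entries, and the inverse of its
determinant (the coordinate indexed by `none`). -/
def coord {ι : Type} [Fintype ι] [DecidableEq ι] (g : GL ι K) : Option (ι × ι) → K
  | none => ((g : Matrix ι ι K).det)⁻¹
  | some ij => (g : Matrix ι ι K) ij.1 ij.2

/-- The map `σ_*` on invertible matrices: apply the field automorphism `σ` to all entries. -/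
def sigmaGL (σ : K ≃+* K) (ι : Type) [Fintype ι] [DecidableEq ι] : GL ι K →* GL ι K :=
  Matrix.GeneralLinearGroup.map (σ : K →+* K)

end defs

/-- A linear algebraic group over an (algebraically closed) field `K`, in classical language:
a Zariski closed subgroup `pts` of the group `GL_ι(K)` of invertible matrices with rows and
columns indexed by a finite set `ι`. -/
structure LinAlgGroup (K : Type u) [Field K] where
  /-- the index set of rows and columns -/
  ι : Type
  [fintype : Fintype ι]
  [decEq : DecidableEq ι]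
  /-- the group of `K`-points, as a subgroup of `GL_ι(K)` -/
  pts : Subgroup (GL ι K)
  /-- the group is the set of common zeros in `GL_ι(K)` of a set of polynomials in the entries -/
  closed : ∃ S : Set (MvPolynomial (ι × ι) K), ∀ g : GL ι K, g ∈ pts ↔ ∀ p ∈ S, evalAt g p = 0

attribute [instance] LinAlgGroup.fintype LinAlgGroup.decEq

section defs

variable {K : Type u} [Field K]

/-- The group `G(K)` of `K`-points of a linear algebraic group, as a type. -/
def LinAlgGroup.Points (G : LinAlgGroup K) : Type u := G.pts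

/-- The group structure of `G(K)`: matrix multiplication. -/
instance (G : LinAlgGroup K) : Group G.Points := G.pts.toGroup

/-- The invertible matrix underlying a point. -/
def LinAlgGroup.toGL (G : LinAlgGroup K) (g : G.Points) : GL G.ι K := g.1

/-- A map `G(K) → H(K)` is a morphism of varieties: each entry of the image of `g` is a
polynomial in the entries of `g` and the inverse of the determinant of `g`. -/
def IsRegular {G H : LinAlgGroup K} (α : G.Points → H.Points) : Prop :=
  ∃ P : H.ι → H.ι → MvPolynomial (Option (G.ι × G.ι)) K, ∀ (g : G.Points) (i j : H.ι),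
    (H.toGL (α g) : Matrix H.ι H.ι K) i j = MvPolynomial.eval (coord (G.toGL g)) (P i j)

lemma sigmaGL_apply (σ : K ≃+* K) {ι : Type} [Fintype ι] [DecidableEq ι] (g : GL ι K) (i j : ι) :
    (sigmaGL σ ι g : Matrix ι ι K) i j = σ ((g : Matrix ι ι K) i j) := rfl

lemma sigmaGL_symm (σ : K ≃+* K) {ι : Type} [Fintype ι] [DecidableEq ι] (g : GL ι K) :
    sigmaGL σ ι (sigmaGL σ.symm ι g) = g := by
  ext i j
  simp [sigmaGL_apply]

lemma eval_sigmaGL (σ : K ≃+* K) {ι : Type} [Fintype ι] [DecidableEq ι] (h : GL ι K)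
    (p : MvPolynomial (ι × ι) K) :
    evalAt (sigmaGL σ ι h) (MvPolynomial.map (σ : K →+* K) p) = σ (evalAt h p) := by
  unfold evalAt
  induction p using MvPolynomial.induction_on with
  | C a => simp only [MvPolynomial.map_C, MvPolynomial.eval_C]; rfl
  | add p q hp hq => simp only [map_add, hp, hq]
  | mul_X p ij hp =>
    rw [map_mul, map_mul, map_mul, map_mul, hp, MvPolynomial.map_X, MvPolynomial.eval_X,
      MvPolynomial.eval_X, sigmaGL_apply]

lemma closed_map_sigmaGL (σ : K ≃+* K) {ι : Type} [Fintype ι] [DecidableEq ι]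
    (G : Subgroup (GL ι K))
    (hS : ∃ S : Set (MvPolynomial (ι × ι) K), ∀ g : GL ι K, g ∈ G ↔ ∀ p ∈ S, evalAt g p = 0) :
    ∃ S : Set (MvPolynomial (ι × ι) K), ∀ g : GL ι K,
      g ∈ G.map (sigmaGL σ ι) ↔ ∀ p ∈ S, evalAt g p = 0 := by
  obtain ⟨S, hS⟩ := hS
  refine ⟨(MvPolynomial.map (σ : K →+* K)) '' S, fun g => ?_⟩
  constructor
  · intro hg p hp
    obtain ⟨h, hh, hhg⟩ := Subgroup.mem_map.mp hg
    obtain ⟨p', hp', hpp⟩ := hp
    rw [← hhg, ← hpp, eval_sigmaGL, (hS h).mp hh p' hp', map_zero]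
  · intro hg
    refine Subgroup.mem_map.mpr ⟨sigmaGL σ.symm ι g, (hS _).mpr ?_, sigmaGL_symm σ g⟩
    intro p hp
    have h1 := hg _ ⟨p, hp, rfl⟩
    rw [← sigmaGL_symm σ g, eval_sigmaGL] at h1
    exact (map_eq_zero_iff σ σ.injective).mp h1

/-- The algebraic group `G^σ`: its group of points is `σ_* (G(K))`; it is defined by the
equations of `G` with `σ` applied to their coefficients (see `closed_map_sigmaGL`). -/
def LinAlgGroup.twist (G : LinAlgGroup K) (σ : K ≃+* K) : LinAlgGroup K where
  ι := G.ι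
  pts := G.pts.map (sigmaGL σ G.ι)
  closed := closed_map_sigmaGL σ G.pts G.closed

/-- The map `σ_* : G(K) → G^σ(K)`, applying `σ` to coordinates. -/
def sigmaStar (G : LinAlgGroup K) (σ : K ≃+* K) (g : G.Points) : (G.twist σ).Points :=
  ⟨sigmaGL σ G.ι (G.toGL g), ⟨G.toGL g, g.2, rfl⟩⟩

/-- An abstract group isomorphism `φ : G(K) → H(K)` is semialgebraic if `φ = α ∘ σ_*` for some
automorphism `σ` of the field `K` and some rational morphism `α : G^σ → H` (a homomorphism of
algebraic groups: a group homomorphism which is a morphism of varieties) which is bijective on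
`K`-points. -/
def IsSemialgebraic {G H : LinAlgGroup K} (φ : G.Points ≃* H.Points) : Prop :=
  ∃ (σ : K ≃+* K) (α : (G.twist σ).Points →* H.Points), IsRegular α ∧ Function.Bijective α ∧
    ∀ g : G.Points, φ g = α (sigmaStar G σ g)

/-- `G` is irreducible as a variety (equivalently, connected as an algebraic group): if a product
of two polynomials vanishes on `G`, one of the factors vanishes on `G`. -/
def LinAlgGroup.IsIrreducible (G : LinAlgGroup K) : Prop :=
  ∀ p q : MvPolynomial (G.ι × G.ι) K, (∀ g ∈ G.pts, evalAt g (p * q) = 0) →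
    (∀ g ∈ G.pts, evalAt g p = 0) ∨ (∀ g ∈ G.pts, evalAt g q = 0)

/-- The centre of `G(K)` is trivial. -/
def LinAlgGroup.HasTrivialCentre (G : LinAlgGroup K) : Prop :=
  ∀ z : G.Points, (∀ g : G.Points, g * z = z * g) → z = 1

/-- `G` is directly indecomposable in the strongest sense: its group of points is not isomorphic,
even as an abstract group, to a direct product of two nontrivial groups. (If `G` were isomorphic
as an algebraic group to a product of two nontrivial algebraic groups, its group of points would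
be such a product.) -/
def LinAlgGroup.IsDirectlyIndecomposable (G : LinAlgGroup K) : Prop :=
  ∀ (A B : Type u) (_ : Group A) (_ : Group B), Nonempty (G.Points ≃* A × B) →
    Subsingleton A ∨ Subsingleton B

end defs

section construction

variable {K : Type u} [Field K] {R : Type u} [Ring R] [Algebra K R] {ι : Type} [Fintype ι]
  [DecidableEq ι] (b : Module.Basis ι K R)

/-- The matrix of an element of `Aff R`. -/
noncomputable def affMat : Aff R →* Matrix (ι ⊕ Unit) (ι ⊕ Unit) K where
  toFun g := fromBlocks (Algebra.leftMulMatrix b (g.u : R)) (Matrix.of fun i _ => b.repr g.v i) 0 1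
  map_one' := by
    ext i j
    rcases i with i | i <;> rcases j with j | j <;> simp [Matrix.one_apply]
  map_mul' g h := by
    rw [fromBlocks_multiply]
    congr 1
    · simp
    · ext i j
      simp only [Aff.mul_v, map_add, Finsupp.add_apply, of_apply, Matrix.add_apply]
      rw [add_comm]
      congr 1
      · rw [← Algebra.leftMulMatrix_mulVec_repr]
        rfl
      · rw [Matrix.mul_apply]; simp
    · simp
    · simp

/-- The representation of `Aff R` by invertible matrices. -/
noncomputable def affRep : Aff R →* GL (ι ⊕ Unit) K := (affMat b).toHomUnits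

lemma affRep_coe (g : Aff R) : (affRep b g : Matrix (ι ⊕ Unit) (ι ⊕ Unit) K) =
    fromBlocks (Algebra.leftMulMatrix b (g.u : R)) (Matrix.of fun i _ => b.repr g.v i) 0 1 := rfl

lemma affRep_injective : Function.Injective (affRep b) := by
  intro g h hgh
  have h1 := congrArg (fun x : GL (ι ⊕ Unit) K => (x : Matrix (ι ⊕ Unit) (ι ⊕ Unit) K)) hgh
  simp only [affRep_coe] at h1
  obtain ⟨h2, h3, -, -⟩ := Matrix.fromBlocks_inj.mp h1
  ext
  · exact Algebra.leftMulMatrix_injective b h2
  · apply b.repr.injective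
    ext i
    exact congrFun (congrFun h3 i) ()

/-- An element of a finite-dimensional algebra is a unit if the matrix of its left
multiplication is invertible. -/
lemma isUnit_of_det (u : R) (h : (Algebra.leftMulMatrix b u).det ≠ 0) : IsUnit u := by
  have hu : IsUnit (Algebra.leftMulMatrix b u) :=
    (Matrix.isUnit_iff_isUnit_det _).mpr (isUnit_iff_ne_zero.mpr h)
  obtain ⟨N, hN⟩ := hu
  have hN1 : Algebra.leftMulMatrix b u * (N⁻¹ : (Matrix ι ι K)ˣ) = 1 := by rw [← hN]; simp
  have hN2 : ((N⁻¹ : (Matrix ι ι K)ˣ) : Matrix ι ι K) * Algebra.leftMulMatrix b u = 1 := by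
    rw [← hN]; simp
  have hinj : ∀ w : R, u * w = 0 → w = 0 := by
    intro w hw
    have h1 := Algebra.leftMulMatrix_mulVec_repr b u w
    rw [hw, map_zero] at h1
    have h2 : ((N⁻¹ : (Matrix ι ι K)ˣ) : Matrix ι ι K) *ᵥ (Algebra.leftMulMatrix b u *ᵥ b.repr w) = 0 := by
      rw [h1]; exact Matrix.mulVec_zero _
    rw [Matrix.mulVec_mulVec, hN2, Matrix.one_mulVec] at h2
    apply b.repr.injective
    rw [map_zero]
    ext i
    exact congrFun h2 i
  let w : R := b.equivFun.symm ((N⁻¹ : (Matrix ι ι K)ˣ) *ᵥ b.repr 1)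
  have hw : u * w = 1 := by
    apply b.repr.injective
    ext i
    have h1 := Algebra.leftMulMatrix_mulVec_repr b u w
    have h2 : ⇑(b.repr w) = ((N⁻¹ : (Matrix ι ι K)ˣ) : Matrix ι ι K) *ᵥ b.repr 1 :=
      b.equivFun.apply_symm_apply _
    rw [h2, Matrix.mulVec_mulVec, hN1, Matrix.one_mulVec] at h1
    exact (congrFun h1 i).symm
  have hw2 : w * u = 1 := by
    have h3 : u * (w * u - 1) = 0 := by rw [mul_sub, ← mul_assoc, hw]; simp
    exact sub_eq_zero.mp (hinj _ h3)
  exact ⟨⟨u, w, hw, hw2⟩, rfl⟩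

/-- The matrix of right multiplication by a basis vector. -/
noncomputable def rm (k : ι) : Matrix ι ι K := fun i j => b.repr (b j * b k) i

lemma rm_eq (k : ι) : rm b k = LinearMap.toMatrix b b (LinearMap.mulRight K (b k)) := by
  ext i j
  rw [LinearMap.toMatrix_apply]
  rfl

lemma mem_range_affRep (g : GL (ι ⊕ Unit) K) :
    g ∈ (affRep b).range ↔
      (∀ j, (g : Matrix (ι ⊕ Unit) (ι ⊕ Unit) K) (Sum.inr ()) (Sum.inl j) = 0) ∧
      (g : Matrix (ι ⊕ Unit) (ι ⊕ Unit) K) (Sum.inr ()) (Sum.inr ()) = 1 ∧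
      ∀ k i l, ∑ j, (g : Matrix (ι ⊕ Unit) (ι ⊕ Unit) K) (Sum.inl i) (Sum.inl j) * rm b k j l =
        ∑ j, rm b k i j * (g : Matrix (ι ⊕ Unit) (ι ⊕ Unit) K) (Sum.inl j) (Sum.inl l) := by
  constructor
  · rintro ⟨h, rfl⟩
    rw [affRep_coe]
    refine ⟨fun j => rfl, rfl, fun k i l => ?_⟩
    have h1 : Algebra.leftMulMatrix b (h.u : R) * rm b k = rm b k * Algebra.leftMulMatrix b (h.u : R) := by
      rw [rm_eq, Algebra.leftMulMatrix_apply, ← LinearMap.toMatrix_mul, ← LinearMap.toMatrix_mul]
      congr 1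
      ext x
      simp [mul_assoc]
    exact congrFun (congrFun h1 i) l
  · rintro ⟨h1, h2, h3⟩
    set M : Matrix (ι ⊕ Unit) (ι ⊕ Unit) K := (g : Matrix (ι ⊕ Unit) (ι ⊕ Unit) K) with hM
    let A : Matrix ι ι K := fun i j => M (Sum.inl i) (Sum.inl j)
    let B : Matrix ι Unit K := fun i j => M (Sum.inl i) (Sum.inr j)
    have hMb : M = fromBlocks A B 0 1 := by
      ext i j
      rcases i with i | i <;> rcases j with j | j
      · rfl
      · rfl
      · exact h1 j
      · exact h2
    let a : R →ₗ[K] R := Matrix.toLin b b A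
    have ha : ∀ k v, a (v * b k) = a v * b k := by
      intro k v
      have h4 : A * rm b k = rm b k * A := by
        ext i l
        exact h3 k i l
      have h5 : A = LinearMap.toMatrix b b a := (LinearMap.toMatrix_toLin b b A).symm
      rw [h5, rm_eq, ← LinearMap.toMatrix_mul, ← LinearMap.toMatrix_mul] at h4
      have h6 := (LinearMap.toMatrix b b).injective h4
      exact LinearMap.congr_fun h6 v
    have ha2 : a = LinearMap.mulLeft K (a 1) := by
      apply b.ext
      intro k
      have := ha k 1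
      rw [one_mul] at this
      rw [this]
      rfl
    have hA : A = Algebra.leftMulMatrix b (a 1) := by
      rw [← Algebra.toMatrix_lmul_eq, ← ha2]
      exact (LinearMap.toMatrix_toLin b b A).symm
    have hdet : (Algebra.leftMulMatrix b (a 1)).det ≠ 0 := by
      have h7 : M.det ≠ 0 := Matrix.GeneralLinearGroup.det_ne_zero g
      rw [hMb, Matrix.det_fromBlocks_zero₂₁, Matrix.det_one, mul_one, hA] at h7
      exact h7
    obtain ⟨u, hu⟩ := isUnit_of_det b (a 1) hdet
    refine ⟨⟨u, b.equivFun.symm (fun i => B i ())⟩, ?_⟩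
    apply Units.ext
    rw [affRep_coe, ← hM, hMb, hA, ← hu]
    congr 1
    ext i j
    exact congrFun (b.equivFun.apply_symm_apply (fun i => B i ())) i

/-- The linear algebraic group attached to a finite-dimensional algebra: the group of invertible
affine maps `x ↦ u x + v`. -/
noncomputable def affGroup : LinAlgGroup K where
  ι := ι ⊕ Unit
  pts := (affRep b).range
  closed := by
    unfold evalAt
    refine ⟨{p | (∃ j, p = MvPolynomial.X (Sum.inr (), Sum.inl j)) ∨
      p = MvPolynomial.X (Sum.inr (), Sum.inr ()) - 1 ∨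
      ∃ k i l, p = ∑ j, MvPolynomial.X (Sum.inl i, Sum.inl j) * MvPolynomial.C (rm b k j l) -
        ∑ j, MvPolynomial.C (rm b k i j) * MvPolynomial.X (Sum.inl j, Sum.inl l)}, fun g => ?_⟩
    rw [mem_range_affRep]
    constructor
    · rintro ⟨h1, h2, h3⟩ p (⟨j, rfl⟩ | rfl | ⟨k, i, l, rfl⟩)
      · simp [h1]
      · simp [h2]
      · simp [h3]
    · intro h
      refine ⟨fun j => ?_, ?_, fun k i l => ?_⟩
      · simpa using h _ (Or.inl ⟨j, rfl⟩)
      · have := h _ (Or.inr (Or.inl rfl))
        simp only [map_sub, MvPolynomial.eval_X, map_one] at this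
        exact sub_eq_zero.mp this
      · have := h _ (Or.inr (Or.inr ⟨k, i, l, rfl⟩))
        simp only [map_sub, map_sum, map_mul, MvPolynomial.eval_X, MvPolynomial.eval_C] at this
        exact sub_eq_zero.mp this

/-- The points of `affGroup b` form the abstract group `Aff R`. -/
noncomputable def affEquiv : Aff R ≃* (affGroup b).Points :=
  MonoidHom.ofInjective (affRep_injective b)

/-- The polynomials giving the entries of the matrix of the affine map `x ↦ u x + v` in terms of
the coordinates of `u` and `v`. -/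
noncomputable def entry : (ι ⊕ Unit) × (ι ⊕ Unit) → MvPolynomial (ι ⊕ ι) K
  | (Sum.inl i, Sum.inl j) =>
      ∑ k, MvPolynomial.X (Sum.inl k) * MvPolynomial.C (Algebra.leftMulMatrix b (b k) i j)
  | (Sum.inl i, Sum.inr _) => MvPolynomial.X (Sum.inr i)
  | (Sum.inr _, Sum.inl _) => 0
  | (Sum.inr _, Sum.inr _) => 1

lemma eval_entry (x y : ι → K) (ij : (ι ⊕ Unit) × (ι ⊕ Unit)) :
    MvPolynomial.eval (Sum.elim x y) (entry b ij) =
      fromBlocks (Algebra.leftMulMatrix b (b.equivFun.symm x))
        (Matrix.of fun i (_ : Unit) => y i) 0 1 ij.1 ij.2 := by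
  obtain ⟨i | i, j | j⟩ := ij
  · simp only [entry, map_sum, map_mul, MvPolynomial.eval_X, MvPolynomial.eval_C,
      Sum.elim_inl, fromBlocks_apply₁₁]
    rw [Module.Basis.equivFun_symm_apply, map_sum]
    simp only [map_smul, Matrix.sum_apply, Matrix.smul_apply, smul_eq_mul]
  · simp [entry]
  · simp [entry]
  · simp [entry]

lemma irreducible_aux [Infinite K] (p q : MvPolynomial ((ι ⊕ Unit) × (ι ⊕ Unit)) K)
    (hpq : ∀ g ∈ (affRep b).range,
      MvPolynomial.eval (fun ij => (g : Matrix (ι ⊕ Unit) (ι ⊕ Unit) K) ij.1 ij.2) (p * q) = 0) :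
    (∀ g ∈ (affRep b).range,
      MvPolynomial.eval (fun ij => (g : Matrix (ι ⊕ Unit) (ι ⊕ Unit) K) ij.1 ij.2) p = 0) ∨
    (∀ g ∈ (affRep b).range,
      MvPolynomial.eval (fun ij => (g : Matrix (ι ⊕ Unit) (ι ⊕ Unit) K) ij.1 ij.2) q = 0) := by
  -- pull back to the affine space of pairs `(u, v)`
  have hev : ∀ (f : MvPolynomial ((ι ⊕ Unit) × (ι ⊕ Unit)) K) (x y : ι → K),
      MvPolynomial.eval (Sum.elim x y) (MvPolynomial.bind₁ (entry b) f) =
        MvPolynomial.eval (fun ij => fromBlocks (Algebra.leftMulMatrix b (b.equivFun.symm x))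
          (Matrix.of fun i (_ : Unit) => y i) 0 1 ij.1 ij.2) f := by
    intro f x y
    induction f using MvPolynomial.induction_on with
    | C a => simp
    | add p q hp hq => simp only [map_add, hp, hq]
    | mul_X p ij hp =>
      rw [map_mul, map_mul, map_mul, hp, MvPolynomial.bind₁_X_right, eval_entry,
        MvPolynomial.eval_X]
  let D : MvPolynomial (ι ⊕ ι) K :=
    Matrix.det (Matrix.of fun i j => entry b (Sum.inl i, Sum.inl j))
  have hD : ∀ x y : ι → K, MvPolynomial.eval (Sum.elim x y) D =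
      (Algebra.leftMulMatrix b (b.equivFun.symm x)).det := by
    intro x y
    rw [RingHom.map_det]
    congr 1
    ext i j
    rw [RingHom.mapMatrix_apply, Matrix.map_apply, Matrix.of_apply, eval_entry]
    rfl
  have hD0 : D ≠ 0 := by
    intro h
    have h1 := hD (b.equivFun 1) 0
    rw [h, LinearEquiv.symm_apply_apply, map_zero,
      map_one (Algebra.leftMulMatrix b), Matrix.det_one] at h1
    exact zero_ne_one h1
  have hprod : (MvPolynomial.bind₁ (entry b) p * MvPolynomial.bind₁ (entry b) q) * D = 0 := by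
    apply MvPolynomial.funext
    intro z
    obtain ⟨x, y, rfl⟩ : ∃ x y : ι → K, z = Sum.elim x y :=
      ⟨fun i => z (Sum.inl i), fun i => z (Sum.inr i), by
        ext i; rcases i with i | i <;> rfl⟩
    rw [map_zero, map_mul, map_mul, hev, hev, hD]
    by_cases hdet : (Algebra.leftMulMatrix b (b.equivFun.symm x)).det = 0
    · rw [hdet, mul_zero]
    · obtain ⟨u, hu⟩ := isUnit_of_det b _ hdet
      have h1 := hpq (affRep b ⟨u, b.equivFun.symm y⟩) ⟨_, rfl⟩
      have h2 : ((affRep b ⟨u, b.equivFun.symm y⟩ : GL (ι ⊕ Unit) K) :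
          Matrix (ι ⊕ Unit) (ι ⊕ Unit) K) =
          fromBlocks (Algebra.leftMulMatrix b (b.equivFun.symm x))
            (Matrix.of fun i (_ : Unit) => y i) 0 1 := by
        rw [affRep_coe, hu]
        congr 1
        ext i j
        exact congrFun (b.equivFun.apply_symm_apply y) i
      rw [h2, map_mul] at h1
      rw [h1, zero_mul]
  have hback : ∀ f : MvPolynomial ((ι ⊕ Unit) × (ι ⊕ Unit)) K,
      MvPolynomial.bind₁ (entry b) f = 0 → ∀ g ∈ (affRep b).range,
        MvPolynomial.eval (fun ij => (g : Matrix (ι ⊕ Unit) (ι ⊕ Unit) K) ij.1 ij.2) f = 0 := by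
    rintro f hf _ ⟨g, rfl⟩
    have h1 := hev f (b.equivFun (g.u : R)) (b.equivFun g.v)
    rw [hf, map_zero, LinearEquiv.symm_apply_apply] at h1
    exact h1.symm
  rcases mul_eq_zero.mp hprod with h | h
  · rcases mul_eq_zero.mp h with h | h
    · exact Or.inl (hback p h)
    · exact Or.inr (hback q h)
  · exact absurd h hD0

lemma affGroup_irreducible [Infinite K] : (affGroup b).IsIrreducible :=
  fun p q h => irreducible_aux b p q h

omit [Fintype ι] [DecidableEq ι] in
/-- A polynomial function which is additive is homogeneous of degree one, in characteristic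
zero. -/
lemma additive_poly [CharZero K] (P : MvPolynomial ι K)
    (hadd : ∀ w w' : ι → K, MvPolynomial.eval (w + w') P =
      MvPolynomial.eval w P + MvPolynomial.eval w' P) (c : K) (w : ι → K) :
    MvPolynomial.eval (c • w) P = c * MvPolynomial.eval w P := by
  have hF : ∀ (Q : MvPolynomial ι K) (t : K),
      (MvPolynomial.aeval (fun i => (Polynomial.C (w i) * Polynomial.X : Polynomial K)) Q).eval t =
        MvPolynomial.eval (t • w) Q := by
    intro Q t
    induction Q using MvPolynomial.induction_on with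
    | C a => simp
    | add p q hp hq => simp [hp, hq]
    | mul_X p i hp =>
      rw [map_mul, map_mul, Polynomial.eval_mul, hp, MvPolynomial.aeval_X, MvPolynomial.eval_X,
        Polynomial.eval_mul, Polynomial.eval_C, Polynomial.eval_X, Pi.smul_apply, smul_eq_mul,
        mul_comm (w i)]
  have hn : ∀ n : ℕ, MvPolynomial.eval ((n : K) • w) P = n * MvPolynomial.eval w P := by
    intro n
    induction n with
    | zero =>
      have h0 := hadd 0 0
      rw [add_zero] at h0
      have h1 : MvPolynomial.eval (0 : ι → K) P = 0 := left_eq_add.mp h0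
      rw [Nat.cast_zero, zero_smul, zero_mul, h1]
    | succ n ih =>
      have h1 : ((n + 1 : ℕ) : K) • w = (n : K) • w + w := by
        push_cast; rw [add_smul, one_smul]
      rw [h1, hadd, ih]; push_cast; ring
  set F : Polynomial K :=
    MvPolynomial.aeval (fun i => (Polynomial.C (w i) * Polynomial.X : Polynomial K)) P -
      Polynomial.X * Polynomial.C (MvPolynomial.eval w P) with hFdef
  have hF0 : F = 0 := by
    apply Polynomial.eq_zero_of_infinite_isRoot
    apply (Set.infinite_range_of_injective (Nat.cast_injective (R := K))).mono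
    rintro _ ⟨n, rfl⟩
    simp only [Set.mem_ofPred_eq, Polynomial.IsRoot.def, hFdef, Polynomial.eval_sub, hF, hn,
      Polynomial.eval_mul, Polynomial.eval_X, Polynomial.eval_C, sub_self]
  have h2 := congrArg (Polynomial.eval c) hF0
  simp only [hFdef, Polynomial.eval_sub, hF, Polynomial.eval_mul, Polynomial.eval_X,
    Polynomial.eval_C, Polynomial.eval_zero] at h2
  exact sub_eq_zero.mp h2

/-- The entries of the matrix of a translation, as polynomials in its coordinates. -/
noncomputable def tEntry : Option ((ι ⊕ Unit) × (ι ⊕ Unit)) → MvPolynomial ι K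
  | none => 1
  | some (Sum.inl i, Sum.inl j) => if i = j then 1 else 0
  | some (Sum.inl i, Sum.inr _) => MvPolynomial.X i
  | some (Sum.inr _, Sum.inl _) => 0
  | some (Sum.inr _, Sum.inr _) => 1

lemma coord_T (σ : K ≃+* K) (v : R) (o : Option ((ι ⊕ Unit) × (ι ⊕ Unit))) :
    coord (sigmaGL σ (ι ⊕ Unit) (affRep b (Aff.T v))) o =
      MvPolynomial.eval (fun i => σ (b.repr v i)) (tEntry (K := K) (ι := ι) o) := by
  have hM : ((sigmaGL σ (ι ⊕ Unit) (affRep b (Aff.T v)) : GL (ι ⊕ Unit) K) :
      Matrix (ι ⊕ Unit) (ι ⊕ Unit) K) =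
      fromBlocks 1 (Matrix.of fun i (_ : Unit) => σ (b.repr v i)) 0 1 := by
    ext i j
    rw [sigmaGL_apply, affRep_coe]
    rcases i with i | i <;> rcases j with j | j
    · simp only [Aff.T_u, Units.val_one, map_one, fromBlocks_apply₁₁, Matrix.one_apply]
      split_ifs <;> simp
    · simp
    · simp
    · simp
  rcases o with _ | ⟨i | i, j | j⟩
  · simp only [coord, hM, tEntry]
    rw [Matrix.det_fromBlocks_zero₂₁]
    simp
  · simp only [coord, hM, tEntry, fromBlocks_apply₁₁, Matrix.one_apply]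
    split_ifs <;> simp
  · simp [coord, hM, tEntry]
  · simp [coord, hM, tEntry]
  · simp [coord, hM, tEntry]

lemma semilinear [CharZero K] {R' : Type u} [Ring R'] [Algebra K R'] {κ : Type} [Fintype κ]
    [DecidableEq κ] (b' : Module.Basis κ K R') (φ : (affGroup b).Points ≃* (affGroup b').Points)
    (hφ : IsSemialgebraic φ) (θ : R → R')
    (hθ : ∀ v, φ (affEquiv b (Aff.T v)) = affEquiv b' (Aff.T (θ v))) :
    ∃ σ : K ≃+* K, ∀ (c : K) (v : R), θ (c • v) = σ c • θ v := by
  obtain ⟨σ, α, ⟨P, hP⟩, -, hα⟩ := hφ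
  refine ⟨σ, ?_⟩
  have hθadd : ∀ v w, θ (v + w) = θ v + θ w := by
    intro v w
    apply Aff.T_injective
    apply (affEquiv b').injective
    rw [← hθ, Aff.T_add, Aff.T_add, map_mul, map_mul, map_mul, hθ, hθ]
  let Q : κ → MvPolynomial ι K := fun k =>
    MvPolynomial.bind₁ (tEntry (K := K) (ι := ι)) (P (Sum.inl k) (Sum.inr ()))
  have hQ : ∀ v k, b'.repr (θ v) k = MvPolynomial.eval (fun i => σ (b.repr v i)) (Q k) := by
    intro v k
    have h1 : (affRep b' (Aff.T (θ v)) : Matrix (κ ⊕ Unit) (κ ⊕ Unit) K)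
        (Sum.inl k) (Sum.inr ()) = b'.repr (θ v) k := by
      rw [affRep_coe]; rfl
    have h3 := hP (sigmaStar _ σ (affEquiv b (Aff.T v))) (Sum.inl k) (Sum.inr ())
    rw [← hα, hθ] at h3
    refine h1.symm.trans (h3.trans ?_)
    have h2 : ∀ f : MvPolynomial (Option ((ι ⊕ Unit) × (ι ⊕ Unit))) K,
        MvPolynomial.eval (coord (sigmaGL σ (ι ⊕ Unit) (affRep b (Aff.T v)))) f =
        MvPolynomial.eval (fun i => σ (b.repr v i)) (MvPolynomial.bind₁ tEntry f) := by
      intro f
      induction f using MvPolynomial.induction_on with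
      | C a => simp
      | add p q hp hq => simp only [map_add, hp, hq]
      | mul_X p ij hp =>
        rw [map_mul, map_mul, map_mul, hp, MvPolynomial.bind₁_X_right, MvPolynomial.eval_X,
          coord_T]
    exact h2 _
  have hlift : ∀ w : ι → K, ∃ v : R, w = fun i => σ (b.repr v i) := by
    intro w
    refine ⟨b.equivFun.symm (fun i => σ.symm (w i)), ?_⟩
    ext i
    have : b.repr (b.equivFun.symm (fun i => σ.symm (w i))) i = σ.symm (w i) :=
      congrFun (b.equivFun.apply_symm_apply _) i
    rw [this, σ.apply_symm_apply]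
  have hadd : ∀ (k : κ) (w w' : ι → K), MvPolynomial.eval (w + w') (Q k) =
      MvPolynomial.eval w (Q k) + MvPolynomial.eval w' (Q k) := by
    intro k w w'
    obtain ⟨v, rfl⟩ := hlift w
    obtain ⟨v', rfl⟩ := hlift w'
    rw [← hQ, ← hQ, ← Finsupp.add_apply, ← map_add, ← hθadd, hQ]
    congr 1
    congr 1
    ext i
    simp
  intro c v
  apply b'.repr.injective
  ext k
  have e1 : b'.repr (σ c • θ v) k = σ c * b'.repr (θ v) k := by simp
  rw [e1, hQ, hQ v, ← additive_poly (Q k) (hadd k)]
  congr 1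
  congr 1
  ext i
  simp

lemma gamma_map {G H : Type u} [Group G] [Group H] (Φ : G ≃* H) (g : G) :
    Φ g ∈ (⁅(⊤ : Subgroup H), ⁅(⊤ : Subgroup H), (⊤ : Subgroup H)⁆⁆) ↔
      g ∈ (⁅(⊤ : Subgroup G), ⁅(⊤ : Subgroup G), (⊤ : Subgroup G)⁆⁆) := by
  have h3 : (⁅(⊤ : Subgroup H), ⁅(⊤ : Subgroup H), (⊤ : Subgroup H)⁆⁆) =
      Subgroup.map (Φ : G →* H)
        (⁅(⊤ : Subgroup G), ⁅(⊤ : Subgroup G), (⊤ : Subgroup G)⁆⁆) := by
    rw [Subgroup.map_commutator, Subgroup.map_commutator,
      Subgroup.map_top_of_surjective (Φ : G →* H) Φ.surjective]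
  rw [h3]
  constructor
  · intro h
    obtain ⟨g', hg', hgg⟩ := Subgroup.mem_map.mp h
    have : g' = g := Φ.injective hgg
    rwa [this] at hg'
  · intro h
    exact Subgroup.mem_map_of_mem _ h

/-- What a semialgebraic isomorphism between the groups of affine maps of two algebras induces
on the algebras. -/
lemma structure_of_semialgebraic [CharZero K] {R' : Type u} [Ring R'] [Algebra K R'] {κ : Type}
    [Fintype κ] [DecidableEq κ] (b' : Module.Basis κ K R')
    (h2 : IsUnit (2 : R)) (h2' : IsUnit (2 : R'))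
    (hcl : ∀ u w x : Rˣ, u * w * u⁻¹ * w⁻¹ * x = x * (u * w * u⁻¹ * w⁻¹))
    (hcl' : ∀ u w x : R'ˣ, u * w * u⁻¹ * w⁻¹ * x = x * (u * w * u⁻¹ * w⁻¹))
    (hloc : ∀ a : R, IsUnit a ∨ IsUnit (1 - a)) (hloc' : ∀ a : R', IsUnit a ∨ IsUnit (1 - a))
    (φ : (affGroup b).Points ≃* (affGroup b').Points) (hφ : IsSemialgebraic φ) :
    ∃ (σ : K ≃+* K) (θ : R → R'), Function.Bijective θ ∧ θ 0 = 0 ∧
      (∀ (c : K) (v : R), θ (c • v) = σ c • θ v) ∧
      (∀ n : R, ∃ n' : R', ∀ v, θ (n * v) = n' * θ v) ∧
      (∀ n' : R', ∃ n : R, ∀ v, θ (n * v) = n' * θ v) := by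
  obtain ⟨Φ, hΦ⟩ : ∃ Φ : Aff R ≃* Aff R', ∀ g, affEquiv b' (Φ g) = φ (affEquiv b g) :=
    ⟨(affEquiv b).trans (φ.trans (affEquiv b').symm), fun g => by simp⟩
  have hgamma : ∀ g : Aff R, (Φ g).u = 1 ↔ g.u = 1 := by
    intro g
    rw [← Aff.mem_gamma_three h2 hcl g, ← Aff.mem_gamma_three h2' hcl' (Φ g)]
    exact gamma_map Φ g
  obtain ⟨θ, hθ⟩ : ∃ θ : R → R', ∀ v, Φ (Aff.T v) = Aff.T (θ v) :=
    ⟨fun v => (Φ (Aff.T v)).v, fun v => Aff.eq_T_of_u_eq_one ((hgamma _).mpr rfl)⟩
  have hθsurj : Function.Surjective θ := by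
    intro w
    have h3 : (Φ.symm (Aff.T w)).u = 1 := by
      rw [← hgamma, Φ.apply_symm_apply]; rfl
    refine ⟨(Φ.symm (Aff.T w)).v, ?_⟩
    apply Aff.T_injective
    rw [← hθ, ← Aff.eq_T_of_u_eq_one h3, Φ.apply_symm_apply]
  have hθinj : Function.Injective θ := by
    intro v w hvw
    apply Aff.T_injective
    apply Φ.injective
    rw [hθ, hθ, hvw]
  have hθadd : ∀ v w, θ (v + w) = θ v + θ w := by
    intro v w
    apply Aff.T_injective
    rw [← hθ, Aff.T_add, Aff.T_add, map_mul, hθ, hθ]
  have hθ0 : θ 0 = 0 := by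
    have := hθadd 0 0
    rw [add_zero] at this
    exact left_eq_add.mp this
  obtain ⟨σ, hσ⟩ := semilinear b b' φ hφ θ (fun v => by rw [← hΦ, hθ])
  -- units act compatibly
  have hunit : ∀ (u : Rˣ) (v : R), θ ((u : R) * v) = (Φ (Aff.D u)).u * θ v := by
    intro u v
    apply Aff.T_injective
    rw [← Aff.conj_T, ← hθ, ← hθ, ← map_inv, ← map_mul, ← map_mul, Aff.conj_T]
    rfl
  have hneg : ∀ v, θ (-v) = -θ v := by
    intro v
    have := hθadd v (-v)
    rw [add_neg_cancel, hθ0] at this
    exact (neg_eq_of_add_eq_zero_right this.symm).symm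
  refine ⟨σ, θ, ⟨hθinj, hθsurj⟩, hθ0, hσ, ?_, ?_⟩
  · intro n
    rcases hloc n with h | h
    · obtain ⟨u, rfl⟩ := h
      exact ⟨_, hunit u⟩
    · obtain ⟨u, hu⟩ := h
      refine ⟨1 - (Φ (Aff.D u)).u, fun v => ?_⟩
      have h5 : n * v = v + -((u : R) * v) := by rw [hu]; noncomm_ring
      rw [h5, hθadd, hneg, hunit]
      noncomm_ring
  · have hun : ∀ w : R'ˣ, ∃ u : Rˣ, (Φ (Aff.D u)).u = w := by
      intro w
      obtain ⟨g, hg⟩ := Φ.surjective (Aff.D w)
      refine ⟨g.u, ?_⟩
      have h6 : g = Aff.T g.v * Aff.D g.u := by ext <;> simp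
      rw [h6, map_mul, hθ] at hg
      have h8 := congrArg Aff.u hg
      simpa using h8
    intro n'
    rcases hloc' n' with h | h
    · obtain ⟨w, rfl⟩ := h
      obtain ⟨u, hu⟩ := hun w
      exact ⟨u, fun v => by rw [hunit, hu]⟩
    · obtain ⟨w, hw⟩ := h
      obtain ⟨u, hu⟩ := hun w
      refine ⟨1 - u, fun v => ?_⟩
      have h5 : (1 - (u : R)) * v = v + -((u : R) * v) := by noncomm_ring
      rw [h5, hθadd, hneg, hunit, hu, hw]
      noncomm_ring

lemma center_affGroup (h2 : IsUnit (2 : R)) : (affGroup b).HasTrivialCentre := by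
  have h1 := Aff.center_eq_bot h2
  intro g hg
  have h2 : (affEquiv b).symm g ∈ Subgroup.center (Aff R) := by
    rw [Subgroup.mem_center_iff]
    intro x
    apply (affEquiv b).injective
    simpa using hg (affEquiv b x)
  rw [h1, Subgroup.mem_bot] at h2
  have h3 := congrArg (affEquiv b) h2
  simpa using h3

lemma indecomposable_affGroup (h2 : IsUnit (2 : R)) (hloc : ∀ a : R, IsUnit a ∨ IsUnit (1 - a)) :
    (affGroup b).IsDirectlyIndecomposable := by
  rintro A B _ _ ⟨f⟩
  exact Aff.indecomposable hloc h2 ((affEquiv b).trans f)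

end construction

section final

variable {K : Type u} [Field K]

lemma isUnit_RR {q : DualNumber K} {f : QAlg (DualNumber K) q} : IsUnit f ↔ f.r.fst ≠ 0 := by
  rw [QAlg.isUnit_iff, TrivSqZeroExt.isUnit_iff_isUnit_fst, isUnit_iff_ne_zero]

lemma two_RR [CharZero K] (q : DualNumber K) : IsUnit (2 : QAlg (DualNumber K) q) := by
  rw [isUnit_RR]
  have : (2 : QAlg (DualNumber K) q) = 1 + 1 := by norm_num
  rw [this]
  simp

lemma local_RR {q : DualNumber K} (f : QAlg (DualNumber K) q) : IsUnit f ∨ IsUnit (1 - f) := by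
  rw [isUnit_RR, isUnit_RR]
  by_cases h : f.r.fst = 0
  · right; simp [h]
  · left; exact h

instance finite_RR (q : DualNumber K) : FiniteDimensional K (QAlg (DualNumber K) q) := by
  have : FiniteDimensional K (DualNumber K) := inferInstanceAs (Module.Finite K (K × K))
  exact QAlg.finiteDimensional

lemma no_semialgebraic [CharZero K] {l : K} (h0 : l ≠ 0) {q q' : DualNumber K}
    (hq : q = TrivSqZeroExt.inl l) (hq1 : q'.snd ≠ 0) (h1 : q'.fst ≠ 1) (h2 : q'.fst ≠ -1)
    {ι κ : Type} [Fintype ι] [DecidableEq ι] [Fintype κ] [DecidableEq κ]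
    (b : Module.Basis ι K (QAlg (DualNumber K) q)) (b' : Module.Basis κ K (QAlg (DualNumber K) q'))
    (φ : (affGroup b).Points ≃* (affGroup b').Points) : ¬ IsSemialgebraic φ := by
  intro hφ
  obtain ⟨σ, θ, ⟨hθinj, hθsurj⟩, hθ0, hσ, hmul, hmul'⟩ :=
    structure_of_semialgebraic b b' (two_RR q) (two_RR q')
      (fun u w x => QAlg.class_two u w x) (fun u w x => QAlg.class_two u w x)
      (fun a => local_RR a) (fun a => local_RR a) φ hφ
  let x : QAlg (DualNumber K) q := ⟨0, 1, 0, 0⟩
  let y : QAlg (DualNumber K) q := ⟨0, 0, 1, 0⟩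
  let ε : QAlg (DualNumber K) q := ⟨DualNumber.eps, 0, 0, 0⟩
  obtain ⟨X, hX⟩ := hmul x
  obtain ⟨Y, hY⟩ := hmul y
  obtain ⟨E, hE⟩ := hmul ε
  obtain ⟨v1, hv1⟩ := hθsurj 1
  have cancel : ∀ A B : QAlg (DualNumber K) q', (∀ v, A * θ v = B * θ v) → A = B := by
    intro A B h
    have := h v1
    rwa [hv1, mul_one, mul_one] at this
  have hxx : x * x = 0 := by ext1 <;> simp [x]
  have hyy : y * y = 0 := by ext1 <;> simp [y]
  have hee : ε * ε = 0 := by ext1 <;> simp [ε]
  have hec : ∀ w : QAlg (DualNumber K) q, ε * w = w * ε := by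
    intro w; ext1 <;> simp [ε, mul_comm]
  have hxy : x * y = l • (y * x) := by
    ext1
    · simp [x, y]
    · simp [x, y]
    · simp [x, y]
    · simp only [x, y, QAlg.mul_c, QAlg.smul_c, mul_zero, mul_one, add_zero, zero_add, hq]
      ext <;> simp
  have hXX : X * X = 0 := by
    apply cancel
    intro v
    rw [mul_assoc, ← hX, ← hX, ← mul_assoc, hxx, zero_mul, hθ0, zero_mul]
  have hYY : Y * Y = 0 := by
    apply cancel
    intro v
    rw [mul_assoc, ← hY, ← hY, ← mul_assoc, hyy, zero_mul, hθ0, zero_mul]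
  have hEE : E * E = 0 := by
    apply cancel
    intro v
    rw [mul_assoc, ← hE, ← hE, ← mul_assoc, hee, zero_mul, hθ0, zero_mul]
  have hEc : ∀ w, E * w = w * E := by
    intro w
    obtain ⟨n, hn⟩ := hmul' w
    apply cancel
    intro v
    rw [mul_assoc, mul_assoc, ← hn, ← hE, ← hE, ← hn, ← mul_assoc, ← mul_assoc, hec]
  have hXY : X * Y = (σ l) • (Y * X) := by
    apply cancel
    intro v
    rw [mul_assoc, ← hY, ← hX, QAlg.smul_mul, mul_assoc, ← hX, ← hY, ← hσ, ← mul_assoc, hxy,
      QAlg.smul_mul, mul_assoc]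
  have hkey := QAlg.key (q := q') hq1 h1 h2 hXX hYY hEE hEc (σ l) hXY
  have h10 : ∀ v, ε * (x * (y * v)) = 0 := by
    intro v
    apply hθinj
    rw [hθ0, hE, hX, hY, ← mul_assoc X, ← mul_assoc, hkey, zero_mul]
  have h11 := congrArg (fun f : QAlg (DualNumber K) q => f.c.snd) (h10 1)
  simp only [mul_one, x, y, ε, QAlg.mul_c, QAlg.mul_r, QAlg.mul_a, QAlg.mul_b, hq] at h11
  simp at h11
  exact h0 h11

/-- **Main result.** Let `K` be any algebraically closed field of characteristic zero which is
not algebraic over `ℚ` (for example `K = ℂ`). There are two connected, directly indecomposable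
linear algebraic groups `G` and `H` over `K` with trivial centres whose groups of points are
isomorphic as abstract groups, but for which no isomorphism `G(K) → H(K)` is semialgebraic. -/
theorem result :
    (∃ l : ℂ, Transcendental ℚ l) ∧
    ∀ (K : Type u) [Field K] [IsAlgClosed K] [CharZero K], (∃ l : K, Transcendental ℚ l) →
      ∃ G H : LinAlgGroup K,
        G.IsIrreducible ∧ H.IsIrreducible ∧
        G.HasTrivialCentre ∧ H.HasTrivialCentre ∧
        G.IsDirectlyIndecomposable ∧ H.IsDirectlyIndecomposable ∧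
        Nonempty (G.Points ≃* H.Points) ∧
        ∀ φ : G.Points ≃* H.Points, ¬ IsSemialgebraic φ := by
  refine ⟨?_, ?_⟩
  · have h1 : Transcendental ℤ (liouvilleNumber (2 : ℕ)) := transcendental_liouvilleNumber le_rfl
    refine ⟨((liouvilleNumber (2 : ℕ) : ℝ) : ℂ), fun h => h1 ?_⟩
    have h2 : IsAlgebraic ℚ (liouvilleNumber (2 : ℕ)) :=
      (isAlgebraic_algebraMap_iff (A := ℂ) (algebraMap ℝ ℂ).injective).mp h
    exact (IsFractionRing.isAlgebraic_iff ℤ ℚ ℝ).mpr h2
  · rintro K _ _ _ ⟨l, hl⟩
    have h0 : l ≠ 0 := fun h => hl (h ▸ isAlgebraic_zero)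
    have h1 : l ≠ 1 := fun h => hl (h ▸ isAlgebraic_one)
    have h2 : l ≠ -1 := fun h => hl (h ▸ isAlgebraic_one.neg)
    let b := Module.finBasis K (QAlg (DualNumber K) (TrivSqZeroExt.inl l))
    let b' := Module.finBasis K (QAlg (DualNumber K) (TrivSqZeroExt.inl l + DualNumber.eps))
    refine ⟨affGroup b, affGroup b',
      affGroup_irreducible b, affGroup_irreducible b', center_affGroup b (two_RR _),
      center_affGroup b' (two_RR _), indecomposable_affGroup b (two_RR _) (fun a => local_RR a),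
      indecomposable_affGroup b' (two_RR _) (fun a => local_RR a), ?_,
      no_semialgebraic h0 rfl (by simp) (by simpa using h1) (by simpa using h2) b b'⟩
    obtain ⟨ψ, hψ⟩ := exists_auto K l hl
    have e1 : QAlg (DualNumber K) (TrivSqZeroExt.inl l : DualNumber K) ≃+*
        QAlg (DualNumber K) (TrivSqZeroExt.inl l + DualNumber.eps : DualNumber K) := by
      rw [← hψ]
      exact QAlg.congr ψ _
    exact ⟨(affEquiv b).symm.trans ((Aff.congr e1).trans (affEquiv b'))⟩

end final

end Pool.Agent.Results.MP_83c24b_al.NotSemialgebraic
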